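import Pool.Agent.helper60.DA.SpecV

/-! Row dv:VEX. -/

namespace Pool.Agent.helper60.DA

open Polynomial Finset Pool.Agent.helper60.DK

theorem VEX_aux1 {p : ℕ} [hp : Fact p.Prime] (f : ℤ[X]) (h : red p f = 0) :
    ∃ V : ℤ[X], f = C (p : ℤ) * V := by
  have h1 : C (p : ℤ) ∣ f := by
    rw [C_dvd_iff_dvd_coeff]
    intro i
    rw [← int_dvd_iff]
    have h2 := congrArg (fun g => coeff g i) h
    simp only [coeff_zero] at h2
    rw [coeff_map] at h2
    simpa using h2
  obtain ⟨V, hV⟩ := h1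
  exact ⟨V, hV⟩

theorem VEX_aux2 (p : ℕ) : (St p).natDegree ≤ 3 * hh p := by
  unfold St
  apply natDegree_sum_le_of_forall_le
  intro i hi
  rw [mem_range] at hi
  exact (natDegree_C_mul_X_pow_le _ _).trans (by omega)

theorem VEX_aux3 (p : ℕ) : (S1 p).natDegree ≤ 3 * hh p := by
  unfold S1 Hh
  apply natDegree_sum_le_of_forall_le
  intro k hk
  rw [mem_range] at hk
  refine (natDegree_C_mul_le _ _).trans ?_
  refine natDegree_mul_le.trans ?_
  have h1 : (X ^ (2 * k) : ℤ[X]).natDegree ≤ 2 * k := natDegree_X_pow_le _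
  have h2 : ((1 + X) ^ (3 * (hh p - k)) : ℤ[X]).natDegree ≤ 3 * (hh p - k) := by
    refine natDegree_pow_le.trans ?_
    have h3 : (1 + X : ℤ[X]).natDegree ≤ 1 := by
      refine (natDegree_add_le _ _).trans ?_
      simp
    calc 3 * (hh p - k) * (1 + X : ℤ[X]).natDegree ≤ 3 * (hh p - k) * 1 :=
          Nat.mul_le_mul_left _ h3
      _ = _ := by ring
  omega

theorem VEX_aux4 (p : ℕ) : (S1 p).coeff 0 = 16 ^ hh p := by
  unfold S1 Hh
  rw [finsetSum_coeff, sum_eq_single 0]
  · rw [coeff_C_mul, coeff_zero_eq_eval_zero]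
    simp [ak]
  · intro k _ hk
    rw [coeff_C_mul, coeff_zero_eq_eval_zero]
    simp [hk]
  · intro h
    simp at h

theorem VEX_aux5 {p : ℕ} [hp : Fact p.Prime] (h5 : 5 ≤ p) : (St p).coeff 0 = 1 := by
  unfold St
  rw [finsetSum_coeff, sum_eq_single 0]
  · rw [coeff_C_mul, coeff_X_pow]
    simp [Sz_coeff_zero (p := p) h5]
  · intro k _ hk
    rw [coeff_C_mul, coeff_X_pow]
    simp [Ne.symm hk]
  · intro h
    simp at h

theorem VEX (hM1 : M1_stmt) (hST : ST_stmt) : VEX_stmt := by
  intro p hp h5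
  have hp0 : (p : ℤ) ≠ 0 := by exact_mod_cast hp.out.ne_zero
  refine ⟨?_, ?_⟩
  · obtain ⟨Z, hZ⟩ := hST p h5
    have hpC : red p (C ((p : ℤ) ^ 2)) = 0 := by
      unfold red
      rw [map_C]
      simp
    have h1 : red p (St p) = Wp p := by
      rw [← S_eq_W (p := p) h5, hZ]
      unfold red at hpC ⊢
      rw [Polynomial.map_add, Polynomial.map_mul, hpC]
      ring
    have h16 : red p (C ((16 : ℤ) ^ hh p)) = 1 := by
      have h2 : ((16 : ZMod p)) ^ hh p = 1 := by
        have h3 := ZMod.pow_card_sub_one_eq_one (four_ne (p := p) h5)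
        have h4 : p - 1 = 2 * hh p := by
          have := two_hh (p := p) h5
          omega
        rw [h4, pow_mul] at h3
        norm_num at h3
        exact h3
      unfold red
      rw [map_C]
      simp [h2]
    have h2 : red p (C ((16 : ℤ) ^ hh p) * St p - S1 p) = 0 := by
      have h3 := hM1 p h5
      unfold red at h1 h16 h3 ⊢
      rw [Polynomial.map_sub, Polynomial.map_mul, h1, h16, h3]
      ring
    obtain ⟨V, hV⟩ := VEX_aux1 _ h2
    refine ⟨V, ?_⟩
    unfold IsV
    rw [← hV]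
    ring
  · intro V hV
    unfold IsV at hV
    have h1 : C (p : ℤ) * V = C ((16 : ℤ) ^ hh p) * St p - S1 p := by
      rw [hV]; ring
    constructor
    · rw [natDegree_le_iff_coeff_eq_zero]
      intro i hi
      have h2 := congrArg (fun g => coeff g i) h1
      simp only [coeff_C_mul, coeff_sub] at h2
      rw [coeff_eq_zero_of_natDegree_lt (lt_of_le_of_lt (VEX_aux2 p) hi),
        coeff_eq_zero_of_natDegree_lt (lt_of_le_of_lt (VEX_aux3 p) hi)] at h2
      have h3 : (p : ℤ) * V.coeff i = 0 := by rw [h2]; ring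
      exact (mul_eq_zero.mp h3).resolve_left hp0
    · have h2 := congrArg (fun g => coeff g 0) h1
      simp only [coeff_C_mul, coeff_sub] at h2
      rw [VEX_aux4, VEX_aux5 h5] at h2
      have h3 : (p : ℤ) * V.coeff 0 = 0 := by rw [h2]; ring
      exact (mul_eq_zero.mp h3).resolve_left hp0

end Pool.Agent.helper60.DA
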